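import Mathlib
import Pool.Agent.Helper99.SZ.Stmts

/-! Module SUB: the basis of a group of `S`-units of a cubic field. -/

set_option autoImplicit false

namespace Pool.Helper99.SZ

open NumberField

/-- rank from an exact sequence -/
theorem sub_rank (Λ : Type) [AddCommGroup Λ] (m : ℕ) (φ : Λ →+ (Fin m → ℤ)) (V : Type)
    [AddCommGroup V] (N : Submodule ℤ V) [Module.Finite ℤ N] [Module.Free ℤ N] (ψ : Λ →+ V)
    (hN : ∀ x, φ x = 0 → ψ x ∈ N)
    (hψ : ∀ x, φ x = 0 → ψ x = 0 → x = 0) :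
    Module.Finite ℤ Λ ∧ Module.finrank ℤ Λ ≤ Module.finrank ℤ N + m := by
  classical
  set f := φ.toIntLinearMap with hf
  let g : LinearMap.ker f →ₗ[ℤ] N :=
    LinearMap.codRestrict N (ψ.toIntLinearMap.comp (LinearMap.ker f).subtype)
      (fun x => hN x.1 x.2)
  have hinj : Function.Injective g := by
    rw [injective_iff_map_eq_zero]
    intro x hx
    have h2 : ψ x.1 = 0 := congrArg Subtype.val hx
    exact Subtype.ext (hψ x.1 x.2 h2)
  have hk : Module.Finite ℤ (LinearMap.ker f) := Module.Finite.of_injective g hinj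
  have hq : Module.Finite ℤ (Λ ⧸ LinearMap.ker f) :=
    Module.Finite.equiv f.quotKerEquivRange.symm
  have hfin : Module.Finite ℤ Λ := Module.Finite.of_submodule_quotient (LinearMap.ker f)
  refine ⟨hfin, ?_⟩
  have h3 := LinearMap.finrank_le_finrank_of_injective hinj
  have h4 := Submodule.finrank_quotient_add_finrank (LinearMap.ker f)
  rw [f.quotKerEquivRange.finrank_eq] at h4
  have h5 : Module.finrank ℤ (LinearMap.range f) ≤ m := by
    have := Submodule.finrank_le (LinearMap.range f)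
    rwa [Module.finrank_fin_fun] at this
  omega

/-- the group theoretic part -/
theorem sub_abs (Cn : ℕ → ℝ) (hCn : ∀ n, ∀ (E : Type) [NormedAddCommGroup E]
    [InnerProductSpace ℝ E] (Λ : Type) [AddCommGroup Λ] [Module.Finite ℤ Λ] [Module.Free ℤ Λ],
    Module.finrank ℤ Λ = n → ∀ ι : Λ →+ E, (∀ x, x ≠ 0 → 1 ≤ ‖ι x‖) →
    ∃ b : Module.Basis (Fin n) ℤ Λ, ∀ x i, |((b.repr x i : ℤ) : ℝ)| ≤ Cn n * ‖ι x‖)
    (G : Type) [AddCommGroup G] (E : Type) [NormedAddCommGroup E] [InnerProductSpace ℝ E]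
    (Lg : G →+ E) (c0 : ℝ) (hc0 : 0 < c0) (hlow : ∀ x, Lg x ≠ 0 → c0 ≤ ‖Lg x‖)
    (m : ℕ) (φ : G →+ (Fin m → ℤ)) (hφ : ∀ x, Lg x = 0 → φ x = 0)
    (V : Type) [AddCommGroup V] (N : Submodule ℤ V) [Module.Finite ℤ N] [Module.Free ℤ N]
    (ψ : G →+ V) (hψ : ∀ x, Lg x = 0 → ψ x = 0) (hN : ∀ x, φ x = 0 → ψ x ∈ N)
    (hk : ∀ x, φ x = 0 → ψ x = 0 → Lg x = 0) :
    ∃ n : ℕ, n ≤ Module.finrank ℤ N + m ∧ ∃ s : Fin n → G,
      (∀ x, ∃ z : Fin n → ℤ, Lg (x - ∑ i, z i • s i) = 0) ∧
      ∀ (z : Fin n → ℤ) (i : Fin n), |((z i : ℤ) : ℝ)| ≤ Cn n / c0 * ‖Lg (∑ i, z i • s i)‖ := by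
  classical
  let φq : G ⧸ Lg.ker →+ (Fin m → ℤ) := QuotientAddGroup.lift Lg.ker φ (fun x hx => hφ x hx)
  let ψq : G ⧸ Lg.ker →+ V := QuotientAddGroup.lift Lg.ker ψ (fun x hx => hψ x hx)
  let ιq : G ⧸ Lg.ker →+ E := QuotientAddGroup.kerLift Lg
  have hιinj : Function.Injective ιq := QuotientAddGroup.kerLift_injective Lg
  have hι : ∀ x : G, ιq (QuotientAddGroup.mk x) = Lg x := fun x => rfl
  obtain ⟨hfin, hrank⟩ := sub_rank (G ⧸ Lg.ker) m φq V N ψq
    (by
      intro x
      induction x using QuotientAddGroup.induction_on with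
      | H x => exact fun hx => hN x hx)
    (by
      intro x
      induction x using QuotientAddGroup.induction_on with
      | H x =>
        intro h1 h2
        have h3 : Lg x = 0 := hk x h1 h2
        exact hιinj (by rw [hι, h3, map_zero]))
  have hE : IsAddTorsionFree E := by
    refine ⟨fun n hn x y h => ?_⟩
    have h1 : (n : ℝ) • x = (n : ℝ) • y := by
      rw [Nat.cast_smul_eq_nsmul, Nat.cast_smul_eq_nsmul]
      exact h
    exact smul_right_injective E (Nat.cast_ne_zero.mpr hn : (n : ℝ) ≠ 0) h1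
  have htf : Module.IsTorsionFree ℤ (G ⧸ Lg.ker) :=
    hιinj.moduleIsTorsionFree _ (fun r x => map_zsmul ιq r x)
  have hfree : Module.Free ℤ (G ⧸ Lg.ker) := Module.free_of_finite_type_torsion_free'
  refine ⟨Module.finrank ℤ (G ⧸ Lg.ker), hrank, ?_⟩
  let ι1 : G ⧸ Lg.ker →+ E := (DistribSMul.toAddMonoidHom E (1 / c0 : ℝ)).comp ιq
  have hι1 : ∀ x : G, ι1 (QuotientAddGroup.mk x) = (1 / c0 : ℝ) • Lg x := fun x => rfl
  obtain ⟨b, hb⟩ := hCn (Module.finrank ℤ (G ⧸ Lg.ker)) E (G ⧸ Lg.ker) rfl ι1 (by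
    intro x
    induction x using QuotientAddGroup.induction_on with
    | H x =>
      intro hx
      have h1 : Lg x ≠ 0 := by
        intro h
        exact hx (hιinj (by rw [hι, h, map_zero]))
      rw [hι1, norm_smul, Real.norm_of_nonneg (by positivity), one_div, inv_mul_eq_div,
        le_div_iff₀ hc0, one_mul]
      exact hlow x h1)
  have hs : ∀ i, ∃ s : G, (QuotientAddGroup.mk s : G ⧸ Lg.ker) = b i := by
    intro i
    exact QuotientAddGroup.mk_surjective (b i)
  choose s hs using hs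
  have hsum : ∀ z : Fin (Module.finrank ℤ (G ⧸ Lg.ker)) → ℤ,
      (QuotientAddGroup.mk (∑ i, z i • s i) : G ⧸ Lg.ker) = ∑ i, z i • b i := by
    intro z
    have h1 : (QuotientAddGroup.mk' Lg.ker) (∑ i, z i • s i) = ∑ i, z i • b i := by
      rw [map_sum]
      refine Finset.sum_congr rfl (fun i _ => ?_)
      rw [map_zsmul]
      exact congrArg _ (hs i)
    exact h1
  refine ⟨s, ?_, ?_⟩
  · intro x
    refine ⟨fun i => b.repr (QuotientAddGroup.mk x) i, ?_⟩
    have h1 : (QuotientAddGroup.mk x : G ⧸ Lg.ker) =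
        QuotientAddGroup.mk (∑ i, b.repr (QuotientAddGroup.mk x) i • s i) := by
      rw [hsum, b.sum_repr]
    have h2 := congrArg ιq h1
    rw [hι, hι] at h2
    rw [map_sub, h2, sub_self]
  · intro z i
    have h1 := hb (QuotientAddGroup.mk (∑ i, z i • s i)) i
    have h2 : b.repr (QuotientAddGroup.mk (∑ i, z i • s i)) i = z i := by
      rw [hsum, b.repr_sum_self]
    rw [h2, hι1, norm_smul, Real.norm_of_nonneg (by positivity)] at h1
    calc |((z i : ℤ) : ℝ)| ≤ _ := h1
      _ = _ := by ring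

theorem sub_card (K : Type) [Field K] [NumberField K] (h : Module.finrank ℚ K = 3) :
    Fintype.card (InfinitePlace K) ≤ 3 := by
  have h1 := InfinitePlace.card_add_two_mul_card_eq_rank K
  have h2 := InfinitePlace.card_eq_nrRealPlaces_add_nrComplexPlaces K
  omega

theorem sub_euc {ι : Type} [Fintype ι] (f : ι → ℝ) :
    (∀ i, |f i| ≤ ‖(WithLp.toLp 2 f : EuclideanSpace ℝ ι)‖) ∧
    ‖(WithLp.toLp 2 f : EuclideanSpace ℝ ι)‖ ≤ ∑ i, |f i| := by
  constructor
  · intro i
    have h := PiLp.norm_apply_le (WithLp.toLp 2 f : EuclideanSpace ℝ ι) i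
    simpa using h
  · rw [EuclideanSpace.norm_eq]
    apply Real.sqrt_le_iff.mpr
    refine ⟨Finset.sum_nonneg (fun i _ => abs_nonneg _), ?_⟩
    have h : ∀ i ∈ (Finset.univ : Finset ι), 0 ≤ |f i| := fun i _ => abs_nonneg _
    have h2 := Finset.sum_sq_le_sq_sum_of_nonneg h
    simpa using h2

theorem sub_norm {K : Type} [Field K] [NumberField K] (P : Ideal (𝓞 K)) (h1 : P.IsPrime)
    (h2 : P ≠ ⊥) : Real.log 2 ≤ Real.log (Ideal.absNorm P) := by
  apply Real.log_le_log (by norm_num)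
  have h3 : Ideal.absNorm P ≠ 0 := by
    rw [Ne, Ideal.absNorm_eq_zero_iff]
    exact h2
  have h4 : Ideal.absNorm P ≠ 1 := by
    rw [Ne, Ideal.absNorm_eq_one_iff]
    exact h1.ne_top
  have h5 : 2 ≤ Ideal.absNorm P := by omega
  exact_mod_cast h5

theorem st_SUB (hRBN : ST_RBN) (hSUF : ST_SUF) (hUB0 : BK.ST_UB0) (hEMB3 : BK.ST_EMB3) :
    ST_SUB := by
  classical
  intro m
  choose Cn hCn1 hCn using hRBN
  obtain ⟨c, hc, hUB⟩ := hUB0
  have hl2 : 0 < Real.log 2 := Real.log_pos (by norm_num)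
  have hl21 : Real.log 2 ≤ 1 := by
    have := Real.log_two_lt_d9
    linarith
  obtain ⟨c0, hc0⟩ : ∃ c0, c0 = min c (Real.log 2) := ⟨_, rfl⟩
  have hc0pos : 0 < c0 := by rw [hc0]; exact lt_min hc hl2
  have hc0c : c0 ≤ c := by rw [hc0]; exact min_le_left _ _
  have hc0l : c0 ≤ Real.log 2 := by rw [hc0]; exact min_le_right _ _
  have hsum1 : ∀ n, n < m + 4 → Cn n ≤ ∑ n ∈ Finset.range (m + 4), Cn n := by
    intro n hn
    exact Finset.single_le_sum (f := Cn) (fun i _ => by linarith [hCn1 i])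
      (Finset.mem_range.mpr hn)
  refine ⟨(∑ n ∈ Finset.range (m + 4), Cn n) / c0, ?_, ?_⟩
  · rw [le_div_iff₀ hc0pos, one_mul]
    have h1 := hsum1 0 (by omega)
    have h2 := hCn1 0
    linarith
  intro K _ _ hdeg σ hσ P hPinj hPpr G1 hneg hG1
  obtain ⟨hmul, hinv, huniq, hunit, -, -⟩ := hSUF K m P hPinj hPpr
  obtain ⟨hall, -, -, -⟩ := hEMB3 K hdeg σ hσ
  have hlogP : ∀ j, Real.log 2 ≤ Real.log (Ideal.absNorm (P j)) :=
    fun j => sub_norm (P j) (hPpr j).1 (hPpr j).2
  have hex : ∀ u : G1, ∃ a, SU P a (u : Kˣ) := fun u => hG1 u u.2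
  choose ae hae using hex
  let φ : Additive G1 →+ (Fin m → ℤ) := AddMonoidHom.mk' (fun u => ae (Additive.toMul u)) (by
    intro u w
    exact huniq _ _ _ (hae _) (hmul _ _ _ _ (hae _) (hae _)))
  have hφ : ∀ u : Additive G1, SU P (φ u) ((Additive.toMul u : G1) : Kˣ) := fun u => hae _
  let co : Additive G1 → (Fin 3 ⊕ Fin m) → ℝ := fun u =>
    Sum.elim (fun k => Real.log ‖σ k (((Additive.toMul u : G1) : Kˣ) : K)‖)
      (fun j => ((φ u j : ℤ) : ℝ) * Real.log (Ideal.absNorm (P j)))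
  have hco1 : ∀ u k, co u (Sum.inl k) =
      Real.log ‖σ k (((Additive.toMul u : G1) : Kˣ) : K)‖ := fun u k => rfl
  have hco2 : ∀ u j, co u (Sum.inr j) =
      ((φ u j : ℤ) : ℝ) * Real.log (Ideal.absNorm (P j)) := fun u j => rfl
  have hcoadd : ∀ u w, co (u + w) = co u + co w := by
    intro u w
    funext i
    rcases i with k | j
    · rw [Pi.add_apply, hco1, hco1, hco1]
      have h1 : ∀ x : Kˣ, ‖σ k (x : K)‖ ≠ 0 := by
        intro x
        rw [norm_ne_zero_iff]
        exact (map_ne_zero (σ k)).mpr x.ne_zero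
      rw [← Real.log_mul (h1 _) (h1 _), ← norm_mul, ← map_mul]
      rfl
    · rw [Pi.add_apply, hco2, hco2, hco2, map_add, Pi.add_apply]
      push_cast
      ring
  let Lg : Additive G1 →+ EuclideanSpace ℝ (Fin 3 ⊕ Fin m) :=
    AddMonoidHom.mk' (fun u => WithLp.toLp 2 (co u)) (by
      intro u w
      rw [hcoadd]
      rfl)
  have hLg : ∀ u, Lg u = WithLp.toLp 2 (co u) := fun u => rfl
  have hLg1 : ∀ u i, |co u i| ≤ ‖Lg u‖ := fun u i => (sub_euc (co u)).1 i
  have hLg2 : ∀ u, ‖Lg u‖ ≤ ∑ i, |co u i| := fun u => (sub_euc (co u)).2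
  -- zero
  have hz1 : ∀ u, Lg u = 0 → φ u = 0 := by
    intro u hu
    funext j
    have h1 := hLg1 u (Sum.inr j)
    rw [hu, norm_zero, hco2, abs_mul] at h1
    have h2 : 0 < |Real.log (Ideal.absNorm (P j))| := by
      rw [abs_of_pos (by linarith [hlogP j])]
      linarith [hlogP j]
    have h3 : |((φ u j : ℤ) : ℝ)| ≤ 0 := by
      by_contra h4
      push Not at h4
      have := mul_pos h4 h2
      linarith
    have h5 : ((φ u j : ℤ) : ℝ) = 0 := abs_eq_zero.mp (le_antisymm h3 (abs_nonneg _))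
    have h6 : φ u j = 0 := by exact_mod_cast h5
    exact h6
  have hz2 : ∀ u, Lg u = 0 → ∀ k, Real.log ‖σ k (((Additive.toMul u : G1) : Kˣ) : K)‖ = 0 := by
    intro u hu k
    have h1 := hLg1 u (Sum.inl k)
    rw [hu, norm_zero, hco1] at h1
    exact abs_eq_zero.mp (le_antisymm h1 (abs_nonneg _))
  have hz3 : ∀ u, φ u = 0 → (∀ k, Real.log ‖σ k (((Additive.toMul u : G1) : Kˣ) : K)‖ = 0) →
      Lg u = 0 := by
    intro u h1 h2
    have h3 : ‖Lg u‖ ≤ 0 := by
      refine (hLg2 u).trans (le_of_eq ?_)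
      apply Finset.sum_eq_zero
      intro i _
      rcases i with k | j
      · rw [hco1, h2, abs_zero]
      · rw [hco2, h1]
        simp
    exact norm_le_zero_iff.mp h3
  -- units
  have hun : ∀ u, φ u = 0 → ∃ e : (𝓞 K)ˣ,
      (((Additive.toMul u : G1) : Kˣ) : K) = ((e : 𝓞 K) : K) := by
    intro u hu
    have h1 := hφ u
    rw [hu] at h1
    exact (hunit _).mp h1
  have hker : ∀ u, Lg u = 0 → ((Additive.toMul u : G1) : Kˣ) = 1 ∨
      ((Additive.toMul u : G1) : Kˣ) = -1 := by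
    intro u hu
    obtain ⟨e, he⟩ := hun u (hz1 u hu)
    by_contra hcon
    push Not at hcon
    have h1 : e ≠ 1 := by
      intro h
      apply hcon.1
      apply Units.ext
      rw [he, h]
      simp
    have h2 : e ≠ -1 := by
      intro h
      apply hcon.2
      apply Units.ext
      rw [he, h]
      simp
    obtain ⟨τ, hτ⟩ := hUB K hdeg e h1 h2
    obtain ⟨k, hk⟩ := hall τ
    have h3 := hz2 u hu k
    rw [he, ← hk] at h3
    rw [h3, abs_zero] at hτ
    linarith
  have hlow : ∀ u, Lg u ≠ 0 → c0 ≤ ‖Lg u‖ := by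
    intro u hu
    by_cases h0 : φ u = 0
    · obtain ⟨e, he⟩ := hun u h0
      have h1 : e ≠ 1 := by
        intro h
        apply hu
        apply hz3 u h0
        intro k
        rw [he, h]
        simp
      have h2 : e ≠ -1 := by
        intro h
        apply hu
        apply hz3 u h0
        intro k
        rw [he, h]
        simp
      obtain ⟨τ, hτ⟩ := hUB K hdeg e h1 h2
      obtain ⟨k, hk⟩ := hall τ
      have h3 := hLg1 u (Sum.inl k)
      rw [hco1, he, ← hk] at h3
      linarith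
    · obtain ⟨j, hj⟩ := Function.ne_iff.mp h0
      have h1 := hLg1 u (Sum.inr j)
      rw [hco2, abs_mul] at h1
      have h2 : 1 ≤ |((φ u j : ℤ) : ℝ)| := by
        have : 1 ≤ |φ u j| := Int.one_le_abs hj
        exact_mod_cast this
      have h3 : Real.log 2 ≤ |Real.log (Ideal.absNorm (P j))| :=
        (hlogP j).trans (le_abs_self _)
      nlinarith
  -- the logarithmic embedding
  let ψ : Additive G1 →+ Units.dirichletUnitTheorem.logSpace K :=
    AddMonoidHom.mk' (fun u w => (InfinitePlace.mult w.val : ℝ) *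
      Real.log (w.val (((Additive.toMul u : G1) : Kˣ) : K))) (by
      intro u w
      funext v
      have h1 : ∀ x : Kˣ, v.val (x : K) ≠ 0 := by
        intro x
        exact (map_ne_zero v.val).mpr x.ne_zero
      have h2 : (((Additive.toMul (u + w) : G1) : Kˣ) : K) =
          (((Additive.toMul u : G1) : Kˣ) : K) * (((Additive.toMul w : G1) : Kˣ) : K) := rfl
      rw [Pi.add_apply, h2, map_mul, Real.log_mul (h1 _) (h1 _), mul_add])
  have hψ : ∀ u w, ψ u w = (InfinitePlace.mult w.val : ℝ) *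
      Real.log (w.val (((Additive.toMul u : G1) : Kˣ) : K)) := fun u w => rfl
  have hψe : ∀ (u : Additive G1) (e : (𝓞 K)ˣ),
      (((Additive.toMul u : G1) : Kˣ) : K) = ((e : 𝓞 K) : K) →
      ψ u = Units.logEmbedding K (Additive.ofMul e) := by
    intro u e he
    funext w
    rw [hψ, Units.dirichletUnitTheorem.logEmbedding_component, he]
  have hfinN : Module.Finite ℤ (Units.unitLattice K) :=
    ZLattice.module_finite ℝ (Units.unitLattice K)
  have hfreeN : Module.Free ℤ (Units.unitLattice K) :=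
    ZLattice.module_free ℝ (Units.unitLattice K)
  obtain ⟨n, hn, s, hs1, hs2⟩ := sub_abs Cn hCn (Additive G1)
    (EuclideanSpace ℝ (Fin 3 ⊕ Fin m)) Lg c0 hc0pos hlow m φ hz1
    (Units.dirichletUnitTheorem.logSpace K) (Units.unitLattice K) ψ
    (by
      intro u hu
      funext w
      obtain ⟨k, hk⟩ := hall w.val.embedding
      rw [hψ, ← InfinitePlace.norm_embedding_eq, hk, hz2 u hu k, mul_zero]
      rfl)
    (by
      intro u hu
      obtain ⟨e, he⟩ := hun u hu
      rw [hψe u e he]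
      exact Submodule.mem_map_of_mem trivial)
    (by
      intro u hu1 hu2
      obtain ⟨e, he⟩ := hun u hu1
      rw [hψe u e he, Units.dirichletUnitTheorem.logEmbedding_eq_zero_iff,
        Units.mem_torsion] at hu2
      apply hz3 u hu1
      intro k
      have h1 := hu2 (InfinitePlace.mk (σ k))
      rw [InfinitePlace.apply] at h1
      rw [he, h1, Real.log_one])
  rw [Units.unitLattice_rank, Units.rank] at hn
  have hcard := sub_card K hdeg
  have hcard1 : 0 < Fintype.card (InfinitePlace K) := Fintype.card_pos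
  have htoMul : ∀ z : Fin n → ℤ, ((Additive.toMul (∑ i, z i • s i) : G1) : Kˣ) =
      ∏ i, ((Additive.toMul (s i) : G1) : Kˣ) ^ (z i) := by
    intro z
    rw [toMul_sum, Subgroup.val_finsetProd]
    refine Finset.prod_congr rfl (fun i _ => ?_)
    rw [toMul_zsmul, Subgroup.coe_zpow]
  refine ⟨n, fun i => ((Additive.toMul (s i) : G1) : Kˣ), fun i => φ (s i), ?_, ?_, ?_, ?_, ?_⟩
  · omega
  · intro i
    exact (Additive.toMul (s i)).2
  · intro i
    exact hφ (s i)
  · intro u hu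
    obtain ⟨z, hz⟩ := hs1 (Additive.ofMul (⟨u, hu⟩ : G1))
    refine ⟨z, ?_⟩
    rw [← htoMul z]
    have h1 := hker _ hz
    rw [toMul_sub, toMul_ofMul, Subgroup.coe_div] at h1
    rcases h1 with h1 | h1
    · left
      exact div_eq_one.mp h1
    · right
      rw [div_eq_iff_eq_mul] at h1
      exact h1.trans (neg_one_mul _)
  · intro z i
    have h1 := hs2 z i
    have h2 := hLg2 (∑ i, z i • s i)
    rw [Fintype.sum_sum_type] at h2
    have h3 : ∀ k, co (∑ i, z i • s i) (Sum.inl k) =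
        Real.log ‖σ k (∏ i, ((((Additive.toMul (s i) : G1) : Kˣ)) : K) ^ (z i))‖ := by
      intro k
      rw [hco1, htoMul z]
      congr 3
      push_cast
      rfl
    have h4 : ∀ j, |co (∑ i, z i • s i) (Sum.inr j)| =
        |((∑ i, z i * (φ (s i)) j : ℤ) : ℝ)| * Real.log (Ideal.absNorm (P j)) := by
      intro j
      rw [hco2, abs_mul, abs_of_pos (lt_of_lt_of_le hl2 (hlogP j))]
      congr 3
      rw [map_sum, Finset.sum_apply]
      refine Finset.sum_congr rfl (fun i _ => ?_)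
      rw [map_zsmul]
      rfl
    simp only [h3, h4] at h2
    have h5 : Cn n / c0 ≤ (∑ n ∈ Finset.range (m + 4), Cn n) / c0 :=
      div_le_div_of_nonneg_right (hsum1 n (by omega)) hc0pos.le
    have h6 : 0 ≤ Cn n / c0 := div_nonneg (by linarith [hCn1 n]) hc0pos.le
    calc |((z i : ℤ) : ℝ)| ≤ Cn n / c0 * ‖Lg (∑ i, z i • s i)‖ := h1
      _ ≤ (∑ n ∈ Finset.range (m + 4), Cn n) / c0 * ‖Lg (∑ i, z i • s i)‖ :=
        mul_le_mul_of_nonneg_right h5 (norm_nonneg _)
      _ ≤ _ := mul_le_mul_of_nonneg_left h2 (h6.trans h5)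

end Pool.Helper99.SZ
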