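import Pool.Agent.Helper99.SZ.Stmts2

set_option autoImplicit false

namespace Pool.Helper99.SZ

open NumberField

/-- the numerical contradiction -/
lemma pn2_num (D v K Lc N t : ℕ) (U l lp : ℝ) (hv : 1 ≤ v) (hD : 1 ≤ D) (hU : 1 ≤ U) (hl : 1 ≤ l)
    (hK : 2000 * (v : ℝ) * D * U ≤ K) (hLc : 1000 * (v : ℝ) * D * l ≤ Lc)
    (hlog : Real.log ((K : ℝ) + 1) ≤ 1000 * l)
    (hN1 : 1 ≤ N) (hN : N ≤ (K + 1) ^ v * Lc) (ht : t = N * Lc * K / (32 * v)) (hlp : 1 / 2 ≤ lp)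
    (h : (t : ℝ) * lp ≤ D * ((N : ℝ) * ((Lc : ℝ) * U + Real.log N +
      (K * l + (Lc : ℝ) * U)))) : False := by
  have hD1 : (1 : ℝ) ≤ D := by exact_mod_cast hD
  have hv1 : (1 : ℝ) ≤ v := by exact_mod_cast hv
  have hvD : 1 ≤ (v : ℝ) * D := by nlinarith
  have hvD0 : 0 ≤ (v : ℝ) * D := by linarith
  have hK1 : 2000 * ((v : ℝ) * D) ≤ K := by nlinarith
  have hL1 : 1000 * ((v : ℝ) * D) ≤ Lc := by nlinarith
  have hK0 : (0 : ℝ) < K := by linarith
  have hL0 : (0 : ℝ) < Lc := by linarith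
  have hN1' : (1 : ℝ) ≤ N := by exact_mod_cast hN1
  have hN0 : (0 : ℝ) < N := by linarith
  have hKL0 : 0 < (K : ℝ) * Lc := by positivity
  have hKL1 : 64 * (v : ℝ) ≤ K * Lc := by
    have h1 : (64 : ℝ) ≤ K := by linarith
    have h2 : (v : ℝ) ≤ Lc := by nlinarith
    have h3 : 64 * (v : ℝ) ≤ 64 * Lc := by linarith
    nlinarith
  -- the lower bound for `t`
  have ht1 : (N : ℝ) * Lc * K < 32 * v * (t + 1) := by
    have h1 : N * Lc * K < 32 * v * (t + 1) := by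
      rw [ht]
      exact Nat.lt_mul_div_succ (N * Lc * K) (by omega : 0 < 32 * v)
    exact_mod_cast h1
  have hNKL : (K : ℝ) * Lc ≤ N * Lc * K := by nlinarith
  have ht2 : (N : ℝ) * Lc * K ≤ 64 * v * t := by nlinarith
  have ht0 : (0 : ℝ) ≤ t := Nat.cast_nonneg t
  have ht3 : (t : ℝ) * (1 / 2) ≤ t * lp := mul_le_mul_of_nonneg_left hlp ht0
  have hmain : (N : ℝ) * (K * Lc) ≤ N * (128 * (v * D) * ((Lc : ℝ) * U + Real.log N +
      (K * l + (Lc : ℝ) * U))) := by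
    have h1 : (t : ℝ) * (1 / 2) ≤ D * ((N : ℝ) * ((Lc : ℝ) * U + Real.log N +
      (K * l + (Lc : ℝ) * U))) := ht3.trans h
    have h2 : 128 * (v : ℝ) * (t * (1 / 2)) ≤ 128 * v * (D * ((N : ℝ) * ((Lc : ℝ) * U +
      Real.log N + (K * l + (Lc : ℝ) * U)))) :=
      mul_le_mul_of_nonneg_left h1 (by linarith)
    have h3 : 128 * (v : ℝ) * (t * (1 / 2)) = 64 * v * t := by ring
    have h4 : 128 * (v : ℝ) * (D * ((N : ℝ) * ((Lc : ℝ) * U + Real.log N +
      (K * l + (Lc : ℝ) * U)))) = N * (128 * (v * D) * ((Lc : ℝ) * U + Real.log N +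
      (K * l + (Lc : ℝ) * U))) := by ring
    have h5 : (N : ℝ) * (K * Lc) = N * Lc * K := by ring
    rw [h3, h4] at h2
    rw [h5]
    exact ht2.trans h2
  have hmain2 := le_of_mul_le_mul_left hmain hN0
  -- log N
  have hlogN : Real.log N ≤ 2 * Lc := by
    have h1 : Real.log N ≤ Real.log (((K : ℝ) + 1) ^ v * Lc) := by
      apply Real.log_le_log hN0
      exact_mod_cast hN
    have h2 : Real.log (((K : ℝ) + 1) ^ v * Lc) = v * Real.log ((K : ℝ) + 1) + Real.log Lc := by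
      rw [Real.log_mul (by positivity) (by positivity), Real.log_pow]
    have h3 : Real.log (Lc : ℝ) ≤ Lc := (Real.log_le_sub_one_of_pos hL0).trans (by linarith)
    have h4 : (v : ℝ) * Real.log ((K : ℝ) + 1) ≤ v * (1000 * l) :=
      mul_le_mul_of_nonneg_left hlog (by linarith)
    have h5 : (v : ℝ) * (1000 * l) ≤ 1000 * v * D * l := by
      have h6 : 1000 * v * l ≤ 1000 * (v : ℝ) * l * D :=
        le_mul_of_one_le_right (by positivity) hD1
      linarith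
    linarith
  have hA : 256 * ((v : ℝ) * D) * U * Lc ≤ 0.128 * (K * Lc) := by
    have h1 : 256 * ((v : ℝ) * D) * U ≤ 0.128 * K := by linarith
    nlinarith
  have hB : 128 * ((v : ℝ) * D) * l * K ≤ 0.128 * (K * Lc) := by
    have h1 : 128 * ((v : ℝ) * D) * l ≤ 0.128 * Lc := by linarith
    nlinarith
  have hC : 128 * ((v : ℝ) * D) * Real.log N ≤ 0.128 * (K * Lc) := by
    have h1 : 128 * ((v : ℝ) * D) * Real.log N ≤ 128 * ((v : ℝ) * D) * (2 * Lc) :=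
      mul_le_mul_of_nonneg_left hlogN (by linarith)
    have h2 : 256 * ((v : ℝ) * D) ≤ 0.128 * K := by linarith
    have h3 : 256 * ((v : ℝ) * D) * Lc ≤ 0.128 * K * Lc := mul_le_mul_of_nonneg_right h2 hL0.le
    linarith
  have hfin : 128 * ((v : ℝ) * D) * ((Lc : ℝ) * U + Real.log N + (K * l + (Lc : ℝ) * U)) =
      256 * ((v : ℝ) * D) * U * Lc + 128 * ((v : ℝ) * D) * l * K +
        128 * ((v : ℝ) * D) * Real.log N := by ring
  rw [hfin] at hmain2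
  linarith

/-- the entries -/
noncomputable def pn2_E {L : Type} [Field L] {n v K Lc : ℕ} (g0 : L) (g : Fin n → L)
    (J : Fin v → Fin n) (a : ℤ × (Fin n → ℤ)) (j : Sx v K × Fin Lc) : L :=
  (∏ i, ((a.2 (J i) : ℤ) : L) ^ (j.1.1 i : ℕ)) * (g0 ^ a.1 * ∏ i, g i ^ (a.2 i)) ^ (j.2 : ℕ)

lemma pn2_int {L : Type} [Field L] [NumberField L] {n v K Lc : ℕ} (g0 : L) (g : Fin n → L)
    (J : Fin v → Fin n) (a : ℤ × (Fin n → ℤ)) (j : Sx v K × Fin Lc) (q : ℕ)
    (hq : IsIntegral ℤ ((q : L) * (g0 ^ a.1 * ∏ i, g i ^ (a.2 i)))) :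
    IsIntegral ℤ (((q ^ Lc : ℕ) : L) * pn2_E g0 g J a j) := by
  have hZ : ∀ k : ℤ, IsIntegral ℤ ((k : ℤ) : L) := by
    intro k
    have h := isIntegral_algebraMap (R := ℤ) (A := L) (x := k)
    simpa using h
  have hlt := j.2.2
  have h1 : ((q ^ Lc : ℕ) : L) * pn2_E g0 g J a j =
      (∏ i, ((a.2 (J i) : ℤ) : L) ^ (j.1.1 i : ℕ)) *
        (((q : L) * (g0 ^ a.1 * ∏ i, g i ^ (a.2 i))) ^ (j.2 : ℕ) *
          (((q : ℤ) : L)) ^ (Lc - (j.2 : ℕ))) := by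
    unfold pn2_E
    have h2 : Lc = (j.2 : ℕ) + (Lc - (j.2 : ℕ)) := by omega
    rw [Nat.cast_pow, Int.cast_natCast]
    have h3 : (q : L) ^ Lc = (q : L) ^ (j.2 : ℕ) * (q : L) ^ (Lc - (j.2 : ℕ)) := by
      rw [← pow_add, ← h2]
    rw [h3, mul_pow (q : L)]
    ring
  rw [h1]
  refine IsIntegral.mul (IsIntegral.prod _ (fun i _ => (hZ _).pow _)) ?_
  exact (hq.pow _).mul ((hZ _).pow _)

lemma pn2_conj {L : Type} [Field L] [NumberField L] {n v K Lc : ℕ} (g0 : L) (g : Fin n → L)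
    (J : Fin v → Fin n) (a : ℤ × (Fin n → ℤ)) (j : Sx v K × Fin Lc) (U Z : ℝ)
    (hZ : 1 ≤ Z) (hU : 0 ≤ U) (ha : ∀ i, |((a.2 i : ℤ) : ℝ)| ≤ Z) (τ : L →+* ℂ)
    (hτ : ‖τ (g0 ^ a.1 * ∏ i, g i ^ (a.2 i))‖ ≤ Real.exp U) :
    ‖τ (pn2_E g0 g J a j)‖ ≤ Z ^ K * Real.exp U ^ Lc := by
  unfold pn2_E
  rw [map_mul, norm_mul, map_prod, norm_prod, map_pow, norm_pow]
  have hZ0 : 0 ≤ Z := by linarith
  refine mul_le_mul ?_ ?_ (by positivity) (by positivity)
  · have h1 : ∏ i, ‖τ (((a.2 (J i) : ℤ) : L) ^ (j.1.1 i : ℕ))‖ ≤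
        ∏ i : Fin v, Z ^ (j.1.1 i : ℕ) := by
      refine Finset.prod_le_prod (fun i _ => norm_nonneg _) (fun i _ => ?_)
      rw [map_pow, norm_pow, map_intCast, Complex.norm_intCast]
      exact pow_le_pow_left₀ (abs_nonneg _) (ha (J i)) _
    refine h1.trans ?_
    rw [Finset.prod_pow_eq_pow_sum]
    exact pow_le_pow_right₀ hZ j.1.2
  · refine (pow_le_pow_left₀ (norm_nonneg _) hτ _).trans ?_
    exact pow_le_pow_right₀ (Real.one_le_exp hU) j.2.2.le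

theorem st_PN2 (h1 : BK.ST_MINOR) (h2 : ST_PD2) (h3 : ST_PAR) (h4 : ST_DVB) : ST_PN2 := by
  intro n D v hv hD1 L _ _ hD P p g0 g nrm U Z l T hU hZ hl hZl hPD hOD V hV J hJ K Lc hK hLc
    hlog hinj
  by_contra hlt
  rw [not_le] at hlt
  obtain ⟨_, _, _, _, _, _, hb7, _, _⟩ := h4 L P hPD.pr hPD.bot
  obtain ⟨row, hrow⟩ := h1 L {a : ℤ × (Fin n → ℤ) // nrm a ≤ U ∧
      (fun i => ((a.2 i : ℤ) : ℚ)) ∈ V} (Sx v K × Fin Lc)
    (fun a j => pn2_E g0 g J a.1 j) (by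
      intro x hx
      refine hinj x (fun a ha1 ha2 => ?_)
      rw [← hx ⟨a, ha1, ha2⟩]
      exact Finset.sum_congr rfl (fun j _ => mul_comm _ _))
  -- sizes
  have hv1 : (1 : ℝ) ≤ v := by exact_mod_cast hv
  have hD1' : (1 : ℝ) ≤ D := by exact_mod_cast hD1
  have hvD : (v : ℝ) ≤ v * D := le_mul_of_one_le_right (by linarith) hD1'
  have hLv : 32 * v ≤ Lc := by
    have h5 : (32 * (v : ℝ)) ≤ Lc := by nlinarith
    exact_mod_cast h5
  have hK1 : 1 ≤ K := by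
    have h5 : (1 : ℝ) ≤ K := by nlinarith
    exact_mod_cast h5
  obtain ⟨N, hN⟩ : ∃ N : ℕ, N = Fintype.card (Sx v K × Fin Lc) := ⟨_, rfl⟩
  obtain ⟨t, ht⟩ : ∃ t : ℕ, t = N * Lc * K / (32 * v) := ⟨_, rfl⟩
  have ht32 : 32 * v * t ≤ N * Lc * K := by
    rw [ht]
    exact Nat.mul_div_le _ _
  have hc1 : 16 * v * t ≤ N * Lc * K := by
    have h5 : 16 * v * t ≤ 32 * v * t := Nat.mul_le_mul_right t (by omega)
    exact h5.trans ht32
  have hc2 : 2 * t ≤ N * T := by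
    have h5 : 2 * t ≤ 32 * v * t := Nat.mul_le_mul_right t (by omega)
    have h6 : N * (K * Lc) ≤ N * T := Nat.mul_le_mul_left N hlt.le
    have h7 : N * (K * Lc) = N * Lc * K := by ring
    rw [h7] at h6
    exact (h5.trans ht32).trans h6
  have hNle : N ≤ (K + 1) ^ v * Lc := by
    rw [hN, Fintype.card_prod, Fintype.card_fin]
    apply Nat.mul_le_mul_right
    refine (Fintype.card_subtype_le _).trans (le_of_eq ?_)
    rw [Fintype.card_fun, Fintype.card_fin, Fintype.card_fin]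
  have hN1 : 1 ≤ N := by
    rw [hN]
    have h5 : Nonempty (Sx v K × Fin Lc) :=
      ⟨(⟨fun _ => 0, by simp⟩, ⟨0, by omega⟩)⟩
    exact Fintype.card_pos
  have hdv : Dv P t (Matrix.of (fun i j => pn2_E (K := K) (Lc := Lc) g0 g J
      (row i).1 j)).det := by
    have h5 := h2 L P hPD.pr hPD.bot p hPD.pp hPD.pm n v K Lc T t hv V hV J hJ
      (fun i => (row i).1.2) (fun i => (row i).2.2) g hPD.pu hOD (fun i => g0 ^ (row i).1.1)
      hPD.T1 (fun i => hb7 T g0 _ hPD.T1 hPD.T0) hK1 hLv (by rw [← hN]; exact hc1)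
      (by rw [← hN]; exact hc2)
    have h6 : (Matrix.of (fun i j => pn2_E (K := K) (Lc := Lc) g0 g J (row i).1 j)) =
        Matrix.of (fun i j : Sx v K × Fin Lc =>
          (∏ k, (((row i).1.2 (J k) : ℤ) : L) ^ (j.1.1 k : ℕ)) *
            ((∏ k, g k ^ ((row i).1.2 k)) * g0 ^ (row i).1.1) ^ (j.2 : ℕ)) := by
      ext i j
      rw [Matrix.of_apply, Matrix.of_apply]
      unfold pn2_E
      rw [mul_comm (g0 ^ (row i).1.1)]
    rw [h6]
    exact h5
  choose q hq0 hq1 hq2 using fun i => hPD.den (row i).1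
  have hU0 : 0 ≤ U := by linarith
  have hpar := h3 L P hPD.pr hPD.bot p hPD.pp hPD.pm (Sx v K × Fin Lc)
    (Matrix.of (fun i j => pn2_E g0 g J (row i).1 j)) hrow (fun i => q i ^ Lc)
    (fun i => Nat.pow_pos (hq0 i))
    (fun i j => by
      rw [Matrix.of_apply]
      exact pn2_int g0 g J (row i).1 j (q i) (hq2 i))
    (Real.exp U ^ Lc) (Z ^ K * Real.exp U ^ Lc)
    (one_le_pow₀ (Real.one_le_exp hU0))
    (one_le_mul_of_one_le_of_one_le (one_le_pow₀ hZ)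
      (one_le_pow₀ (Real.one_le_exp hU0)))
    (fun τ i j => by
      rw [Matrix.of_apply]
      exact pn2_conj g0 g J (row i).1 j U Z hZ hU0 (hPD.coo _ (row i).2.1) τ
        ((hPD.conj _ τ).trans (Real.exp_le_exp.mpr (row i).2.1)))
    (fun i => by
      rw [Nat.cast_pow]
      exact pow_le_pow_left₀ (Nat.cast_nonneg _)
        ((hq1 i).trans (Real.exp_le_exp.mpr (row i).2.1)) _)
    t hdv
  rw [← hN] at hpar
  have hZ0 : 0 < Z := by linarith
  have hlogQ : Real.log (Real.exp U ^ Lc) = (Lc : ℝ) * U := by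
    rw [Real.log_pow, Real.log_exp]
  have hlogB : Real.log (Z ^ K * Real.exp U ^ Lc) = K * Real.log Z + (Lc : ℝ) * U := by
    rw [Real.log_mul (by positivity) (by positivity), hlogQ, Real.log_pow]
  rw [hlogQ, hlogB] at hpar
  have hlogZ0 : 0 ≤ Real.log Z := Real.log_nonneg hZ
  have hlogN0 : 0 ≤ Real.log (N : ℝ) := Real.log_natCast_nonneg N
  have hlogp : 1 / 2 ≤ Real.log p := by
    have h5 : (2 : ℝ) ≤ p := by exact_mod_cast hPD.pp.two_le
    have h6 : Real.log 2 ≤ Real.log p := Real.log_le_log (by norm_num) h5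
    have h7 := Real.log_two_gt_d9
    linarith
  refine pn2_num D v K Lc N t U l (Real.log p) hv hD1 hU hl hK hLc hlog hN1 hNle ht hlogp ?_
  refine hpar.trans ?_
  have hbr : (Lc : ℝ) * U + Real.log N + (K * Real.log Z + (Lc : ℝ) * U) ≤
      (Lc : ℝ) * U + Real.log N + (K * l + (Lc : ℝ) * U) := by
    have h5 : (K : ℝ) * Real.log Z ≤ K * l :=
      mul_le_mul_of_nonneg_left hZl (Nat.cast_nonneg K)
    linarith
  refine mul_le_mul (by exact_mod_cast hD)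
    (mul_le_mul_of_nonneg_left hbr (Nat.cast_nonneg N)) ?_ (Nat.cast_nonneg D)
  refine mul_nonneg (Nat.cast_nonneg N) ?_
  positivity

end Pool.Helper99.SZ
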